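import Pool.Agent.Helper38.WM.St2

/-!
# Project WM, module TRW: transfer of a filtration to a presented group
-/

set_option autoImplicit false

namespace Pool.Agent.Helper33.WM

open Pool.Agent.Helper38.WM

theorem hTRW : Pool.Agent.Helper38.WM.StTRW := by
  intro p _ X _ _ ι r F hr
  let q : FreeGroup X →* PresentedGroup (Set.range r) := PresentedGroup.mk (Set.range r)
  have hq : Function.Surjective q := PresentedGroup.mk_surjective _
  let π : GA p (FreeGroup X) →ₐ[ZMod p] GA p (PresentedGroup (Set.range r)) :=
    MonoidAlgebra.mapDomainAlgHom (ZMod p) (ZMod p) q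
  have hπ : ∀ g, π (el p g) = el p (q g) := fun g => by
    show MonoidAlgebra.mapDomain q (MonoidAlgebra.single g 1) = MonoidAlgebra.single (q g) 1
    rw [MonoidAlgebra.mapDomain_single]
  have hsurj : Function.Surjective π := by
    intro y
    induction y using MonoidAlgebra.induction_on with
    | of g =>
      obtain ⟨x, rfl⟩ := hq g
      exact ⟨el p x, hπ x⟩
    | add a b ha hb =>
      obtain ⟨x, rfl⟩ := ha
      obtain ⟨y, rfl⟩ := hb
      exact ⟨x + y, map_add _ _ _⟩
    | smul c a ha =>
      obtain ⟨x, rfl⟩ := ha
      exact ⟨c • x, map_smul _ _ _⟩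
  -- the kernel
  have hker : ∀ n, LinearMap.ker π.toLinearMap ≤ F.J n := by
    intro n f hf
    have hN : ∀ g : FreeGroup X, q g = 1 → g ∈ F.D n := by
      intro g hg
      have hg' : g ∈ Subgroup.normalClosure (Set.range r) := PresentedGroup.mk_eq_one_iff.mp hg
      have := F.D_normal n
      refine Subgroup.normalClosure_le_normal ?_ hg'
      rintro _ ⟨i, rfl⟩
      exact hr n i
    let s : PresentedGroup (Set.range r) → FreeGroup X := Function.surjInv hq
    have hs : ∀ g, q (s g) = g := Function.surjInv_eq hq
    have key : ∀ f : GA p (FreeGroup X), f - MonoidAlgebra.mapDomain s (π f) ∈ F.J n := by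
      intro f
      induction f using MonoidAlgebra.induction_on with
      | of g =>
        have e1 : π (MonoidAlgebra.of (ZMod p) (FreeGroup X) g) = el p (q g) := hπ g
        have e2 : MonoidAlgebra.mapDomain s (el p (q g)) = el p (s (q g)) := by
          show MonoidAlgebra.mapDomain s (MonoidAlgebra.single (q g) 1) =
            MonoidAlgebra.single (s (q g)) 1
          rw [MonoidAlgebra.mapDomain_single]
        rw [e1, e2]
        have h1 : g * (s (q g))⁻¹ ∈ F.D n := by
          apply hN
          rw [map_mul, map_inv, hs, mul_inv_cancel]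
        have h2 := F.mul_right (F.mem_D.mp h1) (el p (s (q g)))
        have e3 : (el p (g * (s (q g))⁻¹) - 1) * el p (s (q g)) =
            el p g - el p (s (q g)) := by
          rw [sub_mul, one_mul, el, el, ← map_mul, inv_mul_cancel_right]
        rw [e3] at h2
        exact h2
      | add a b ha hb =>
        have e : a + b - MonoidAlgebra.mapDomain s (π (a + b)) =
            (a - MonoidAlgebra.mapDomain s (π a)) + (b - MonoidAlgebra.mapDomain s (π b)) := by
          rw [map_add, MonoidAlgebra.mapDomain_add]; abel
        rw [e]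
        exact Submodule.add_mem _ ha hb
      | smul c a ha =>
        have e : c • a - MonoidAlgebra.mapDomain s (π (c • a)) =
            c • (a - MonoidAlgebra.mapDomain s (π a)) := by
          rw [map_smul, smul_sub]
          congr 1
          ext g
          simp [MonoidAlgebra.mapDomain, Finsupp.mapDomain_smul]
        rw [e]
        exact Submodule.smul_mem _ _ ha
    have h0 : π f = 0 := hf
    have := key f
    rw [h0, MonoidAlgebra.mapDomain_zero, sub_zero] at this
    exact this
  -- the quotient map
  have hkerq : ∀ n, LinearMap.ker (((F.J n).map π.toLinearMap).mkQ ∘ₗ π.toLinearMap) = F.J n := by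
    intro n
    rw [LinearMap.ker_comp, Submodule.ker_mkQ, Submodule.comap_map_eq]
    exact sup_eq_left.mpr (hker n)
  have hsq : ∀ n, Function.Surjective (((F.J n).map π.toLinearMap).mkQ ∘ₗ π.toLinearMap) := by
    intro n
    rw [LinearMap.coe_comp]
    exact (Submodule.mkQ_surjective _).comp hsurj
  let E : ∀ n, (GA p (FreeGroup X) ⧸ F.J n) ≃ₗ[ZMod p]
      (GA p (PresentedGroup (Set.range r)) ⧸ (F.J n).map π.toLinearMap) := fun n =>
    (Submodule.quotEquivOfEq _ _ (hkerq n).symm).trans
      (LinearMap.quotKerEquivOfSurjective _ (hsq n))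
  refine ⟨⟨fun n => (F.J n).map π.toLinearMap, ?_, ?_, ?_, ?_⟩, fun n => (E n).finrank_eq.symm⟩
  · show (F.J 0).map π.toLinearMap = ⊤
    rw [F.top, Submodule.map_top]
    exact LinearMap.range_eq_top.mpr hsurj
  · intro m n hmn
    exact Submodule.map_mono (F.anti hmn)
  · intro m l
    show (F.J m).map π.toLinearMap * (F.J l).map π.toLinearMap ≤ (F.J (m + l)).map π.toLinearMap
    rw [← Submodule.map_mul]
    exact Submodule.map_mono (F.mul m l)
  · intro n
    have := F.fin n
    exact Module.Finite.equiv (E n)

end Pool.Agent.Helper33.WM
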